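import Pool.Agent.PV3.Stmts

/-!
Squad PV3, module SEL (helper59): the second difference of the shadows is positive if there is a
touching ball.
-/

set_option autoImplicit false

open MeasureTheory Metric Set Filter Topology

namespace PV3.H59

open PV PV3 PV.KC

/-- The volume of the shadow as an integral over the slices. -/
theorem shadow_vol {n : ℕ} {X : Set (ℝ × ℝ × E n)} (hX : IsCompact X) (t : ℝ) :
    ((volume : Measure ℝ).prod (volume : Measure (E n))).real (shadow t X) =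
      ∫ z, g X 0 1 t z ∧ Integrable (g X (0 : (ℝ × E n) →L[ℝ] ℝ) 1 t) := by
  obtain ⟨h1, h2⟩ := G_eq (volume : Measure (E n)) hX 0 1 t
  refine ⟨?_, h2⟩
  rw [← h1]
  simp

theorem T_disc {S : Set (ℝ × ℝ)} (hS : IsCompact S) (s r ρ t : ℝ)
    (h : ∀ q : ℝ × ℝ, (q.1 - s) ^ 2 + (q.2 - r) ^ 2 ≤ ρ ^ 2 → q ∈ S) :
    r - t * s + ρ * Real.sqrt (1 + t ^ 2) ≤ T S t := by
  obtain ⟨c, hc⟩ : ∃ c : ℝ, c = Real.sqrt (1 + t ^ 2) := ⟨_, rfl⟩
  have hc2 : c ^ 2 = 1 + t ^ 2 := by rw [hc]; exact Real.sq_sqrt (by positivity)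
  have hc0 : 0 < c := by rw [hc]; exact Real.sqrt_pos.2 (by positivity)
  rw [← hc]
  have hm : (s - ρ * t / c, r + ρ / c) ∈ S := by
    refine h _ (le_of_eq ?_)
    simp only
    have e1 : (s - ρ * t / c - s) ^ 2 + (r + ρ / c - r) ^ 2 = ρ ^ 2 * (1 + t ^ 2) / c ^ 2 := by
      field_simp
      ring
    rw [e1, ← hc2]
    field_simp
  have := le_T hS t hm
  simp only at this
  have e2 : r + ρ / c - t * (s - ρ * t / c) = r - t * s + ρ * c := by
    have : ρ / c + t * (ρ * t / c) = ρ * c := by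
      field_simp
      rw [hc2]
    linarith [this]
  linarith

theorem sel : SELStmt := by
  intro n L u ν y ρ ι hL hu hν huν hu' hν' hρ hball htop t ht
  have hbij := PV.TR.coord_bijective (ι := ι) (n := n + 2)
    (by simp) hu hν huν hu' hν'
  let e : (ℝ × ℝ × E n) ≃ₗ[ℝ] E (n + 2) := LinearEquiv.ofBijective (PV.TR.coordL u ν ι) hbij
  let eL : (ℝ × ℝ × E n) ≃L[ℝ] E (n + 2) := e.toContinuousLinearEquiv
  have heL : ∀ p, eL p = coord u ν ι p := fun p => rfl
  obtain ⟨X, hXd⟩ : ∃ X : Set (ℝ × ℝ × E n), X = coord u ν ι ⁻¹' L := ⟨_, rfl⟩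
  rw [← hXd]
  have hX : IsCompact X := by
    have : X = eL.symm '' L := by
      rw [hXd]
      ext p
      constructor
      · intro hp
        exact ⟨coord u ν ι p, hp, by rw [← heL, eL.symm_apply_apply]⟩
      · rintro ⟨x, hx, rfl⟩
        simp only [Set.mem_preimage, ← heL, eL.apply_symm_apply]
        exact hx
    rw [this]
    exact hL.cpt.image eL.symm.continuous
  have hXc : Convex ℝ X := by
    rw [hXd]
    exact hL.cvx.linear_preimage (PV.TR.coordL u ν ι)
  -- the centre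
  obtain ⟨⟨sy, ry, zy⟩, hy⟩ := hbij.2 y
  have hy' : coord u ν ι (sy, ry, zy) = y := hy
  have hyν : inner ℝ y ν = ry := by
    rw [← hy', real_inner_comm]
    exact PV.TR.coord_inner_nu hν huν hν' _
  have hdist : ∀ (s r : ℝ) (z : E n), ‖coord u ν ι (s, r, z) - y‖ ^ 2 =
      (s - sy) ^ 2 + (r - ry) ^ 2 + ‖z - zy‖ ^ 2 := by
    intro s r z
    have e1 : coord u ν ι (s, r, z) - y = (s - sy) • u + ((r - ry) • ν + ι (z - zy)) := by
      rw [← hy']
      unfold coord
      simp only [map_sub]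
      module
    have e2 : inner ℝ ((r - ry) • ν) (ι (z - zy)) = 0 := by
      rw [inner_smul_left, hν', mul_zero]
    have e3 : inner ℝ ((s - sy) • u) ((r - ry) • ν + ι (z - zy)) = 0 := by
      rw [inner_smul_left, inner_add_right, inner_smul_right, huν, hu', mul_zero, add_zero,
        mul_zero]
    rw [e1, sq, norm_add_sq_eq_norm_sq_add_norm_sq_of_inner_eq_zero _ _ e3,
      norm_add_sq_eq_norm_sq_add_norm_sq_of_inner_eq_zero _ _ e2, norm_smul, norm_smul, hu, hν,
      ι.norm_map, Real.norm_eq_abs, Real.norm_eq_abs]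
    rw [← sq_abs (s - sy), ← sq_abs (r - ry)]
    ring
  have hmem : ∀ (s r : ℝ) (z : E n), (s - sy) ^ 2 + (r - ry) ^ 2 + ‖z - zy‖ ^ 2 ≤ ρ ^ 2 →
      (s, r) ∈ slice X z := by
    intro s r z h
    show (s, r, z) ∈ X
    rw [hXd]
    refine hball ?_
    rw [mem_closedBall, dist_eq_norm]
    rw [← hdist] at h
    exact (sq_le_sq₀ (norm_nonneg _) hρ.le).1 h
  have htopX : ∀ z : E n, (slice X z).Nonempty → T (slice X z) 0 ≤ ry + ρ := by
    intro z hne
    obtain ⟨q, hq, h1, _⟩ := T_exists (slice_compact hX z) hne 0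
    have hq' : coord u ν ι (q.1, q.2, z) ∈ L := by
      have : (q.1, q.2, z) ∈ X := hq
      rwa [hXd] at this
    have h2 := htop _ hq'
    rw [hyν, real_inner_comm, PV.TR.coord_inner_nu hν huν hν'] at h2
    simp only at h2
    linarith
  -- the second difference
  obtain ⟨w1, i1⟩ := shadow_vol hX t
  obtain ⟨w2, i2⟩ := shadow_vol hX (-t)
  obtain ⟨w3, i3⟩ := shadow_vol hX 0
  have hq : ∀ z : E n, 0 ≤ g X 0 1 t z + g X 0 1 (-t) z - 2 * g X 0 1 0 z := by
    intro z
    show 0 ≤ q X 0 1 t z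
    by_cases hne : (slice X z).Nonempty
    · rw [second_eq hX hXc 0 1 t z hne]
      have h1 := T_second_nonneg (slice_compact hX z) hne t
      have h2 := B_second_nonpos (slice_compact hX z) hne t
      simp only [_root_.zero_apply, zero_div, zero_mul, add_zero, zero_add, one_mul]
      linarith
    · rw [q_empty 0 1 t z hne]
  -- the ball of large second difference
  obtain ⟨κ, hκ⟩ : ∃ κ : ℝ, κ = 2 * (ρ * Real.sqrt (1 + t ^ 2 / 2) - ρ) := ⟨_, rfl⟩
  have ht2 : 0 < t ^ 2 := by positivity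
  have hκ0 : 0 < κ := by
    have : 1 < Real.sqrt (1 + t ^ 2 / 2) := by
      rw [Real.lt_sqrt (by norm_num)]
      linarith
    rw [hκ]
    nlinarith
  obtain ⟨d, hd⟩ : ∃ d : ℝ, d = ρ * Real.sqrt (t ^ 2 / (2 * (1 + t ^ 2))) := ⟨_, rfl⟩
  have hd0 : 0 < d := by
    rw [hd]
    exact mul_pos hρ (Real.sqrt_pos.2 (by positivity))
  have hd2 : d ^ 2 = ρ ^ 2 * (t ^ 2 / (2 * (1 + t ^ 2))) := by
    rw [hd, mul_pow, Real.sq_sqrt (by positivity)]
  have hbig : ∀ z ∈ ball zy d, κ ≤ g X 0 1 t z + g X 0 1 (-t) z - 2 * g X 0 1 0 z := by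
    intro z hz
    show κ ≤ q X 0 1 t z
    rw [mem_ball, dist_eq_norm] at hz
    have hz2 : ‖z - zy‖ ^ 2 ≤ d ^ 2 := by
      exact pow_le_pow_left₀ (norm_nonneg _) hz.le 2
    have hlt1 : t ^ 2 / (2 * (1 + t ^ 2)) ≤ 1 := by
      rw [div_le_one (by positivity)]
      linarith
    have hr0 : 0 ≤ ρ ^ 2 - ‖z - zy‖ ^ 2 := by
      have : d ^ 2 ≤ ρ ^ 2 := by
        rw [hd2]
        nlinarith [sq_nonneg ρ]
      linarith
    obtain ⟨r, hr⟩ : ∃ r : ℝ, r = Real.sqrt (ρ ^ 2 - ‖z - zy‖ ^ 2) := ⟨_, rfl⟩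
    have hr2 : r ^ 2 = ρ ^ 2 - ‖z - zy‖ ^ 2 := by rw [hr]; exact Real.sq_sqrt hr0
    have hrn : 0 ≤ r := by rw [hr]; exact Real.sqrt_nonneg _
    have hdisc : ∀ q : ℝ × ℝ, (q.1 - sy) ^ 2 + (q.2 - ry) ^ 2 ≤ r ^ 2 → q ∈ slice X z := by
      intro q hq
      refine hmem q.1 q.2 z ?_
      linarith
    have hne : (slice X z).Nonempty := ⟨(sy, ry), hdisc _ (by simp; positivity)⟩
    have hS := slice_compact hX z
    rw [second_eq hX hXc 0 1 t z hne]
    have h2 := B_second_nonpos hS hne t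
    have h3 := T_disc hS sy ry r t hdisc
    have h4 := T_disc hS sy ry r (-t) hdisc
    have h5 := htopX z hne
    rw [neg_sq] at h4
    have h6 : ρ * Real.sqrt (1 + t ^ 2 / 2) ≤ r * Real.sqrt (1 + t ^ 2) := by
      have hsq : (ρ * Real.sqrt (1 + t ^ 2 / 2)) ^ 2 ≤ (r * Real.sqrt (1 + t ^ 2)) ^ 2 := by
        rw [mul_pow, mul_pow, Real.sq_sqrt (by positivity), Real.sq_sqrt (by positivity), hr2]
        have e1 : (ρ ^ 2 * (t ^ 2 / (2 * (1 + t ^ 2)))) * (1 + t ^ 2) = ρ ^ 2 * (t ^ 2 / 2) := by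
          field_simp
        have e2 : ‖z - zy‖ ^ 2 * (1 + t ^ 2) ≤ ρ ^ 2 * (t ^ 2 / 2) := by
          rw [← e1, ← hd2]
          exact mul_le_mul_of_nonneg_right hz2 (by positivity)
        nlinarith
      exact (sq_le_sq₀ (by positivity) (by positivity)).1 hsq
    simp only [_root_.zero_apply, zero_div, zero_mul, add_zero, zero_add, one_mul]
    rw [hκ]
    linarith
  have hint : Integrable (fun z : E n => g X 0 1 t z + g X 0 1 (-t) z - 2 * g X 0 1 0 z) :=
    (i1.add i2).sub (i3.const_mul 2)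
  have hval : ∫ z : E n, (g X 0 1 t z + g X 0 1 (-t) z - 2 * g X 0 1 0 z) =
      ((volume : Measure ℝ).prod (volume : Measure (E n))).real (shadow t X) +
      ((volume : Measure ℝ).prod (volume : Measure (E n))).real (shadow (-t) X) -
      2 * ((volume : Measure ℝ).prod (volume : Measure (E n))).real (shadow 0 X) := by
    rw [w1, w2, w3]
    have e1 : ∫ z : E n, (g X 0 1 t z + g X 0 1 (-t) z - 2 * g X 0 1 0 z) =
        (∫ z : E n, (g X 0 1 t z + g X 0 1 (-t) z)) - ∫ z : E n, 2 * g X 0 1 0 z :=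
      integral_sub (i1.add i2) (i3.const_mul 2)
    rw [e1, integral_add i1 i2, integral_const_mul]
  have hlow : κ * (volume : Measure (E n)).real (ball zy d) ≤
      ∫ z : E n, (g X 0 1 t z + g X 0 1 (-t) z - 2 * g X 0 1 0 z) := by
    have e1 : ∫ z : E n, (ball zy d).indicator (fun _ => κ) z =
        κ * (volume : Measure (E n)).real (ball zy d) := by
      rw [integral_indicator measurableSet_ball, setIntegral_const, smul_eq_mul, mul_comm]
    rw [← e1]
    refine integral_mono ?_ hint fun z => ?_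
    · rw [integrable_indicator_iff measurableSet_ball]
      exact integrableOn_const measure_ball_lt_top.ne
    · by_cases hz : z ∈ ball zy d
      · rw [indicator_of_mem hz]
        exact hbig z hz
      · rw [indicator_of_notMem hz]
        exact hq z
  have hb : 0 < (volume : Measure (E n)).real (ball zy d) :=
    ENNReal.toReal_pos (measure_ball_pos volume zy hd0).ne' measure_ball_lt_top.ne
  have hpos : 0 < κ * (volume : Measure (E n)).real (ball zy d) := mul_pos hκ0 hb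
  linarith

end PV3.H59
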